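import Pool.Agent.R489.SQ.Stm

/-!
# SQ-W1 (helper141): chordal partitions of graphs without a complete minor
-/

set_option autoImplicit false

namespace Pool.Agent.R141.SQW

open Finset Pool.Agent.R489.SQ

variable {V : Type}

/-- the graph with only the edges inside a set of vertices -/
def res (G : SimpleGraph V) (U : Set V) : SimpleGraph V where
  Adj x y := G.Adj x y ∧ x ∈ U ∧ y ∈ U
  symm := ⟨fun _ _ h => ⟨h.1.symm, h.2.2, h.2.1⟩⟩
  loopless := ⟨fun x h => G.loopless.irrefl x h.1⟩

theorem to_res {G : SimpleGraph V} {U : Set V} {x z : V} (p : G.Walk x z)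
    (h : ∀ w ∈ p.support, w ∈ U) : ∃ q : (res G U).Walk x z, q.length = p.length := by
  induction p with
  | nil => exact ⟨.nil, rfl⟩
  | @cons a b c ha p ih =>
    obtain ⟨q, hq⟩ := ih (fun w hw => h w (by simp [hw]))
    have h1 : (res G U).Adj a b := ⟨ha, h _ (by simp), h _ (by simp)⟩
    exact ⟨.cons h1 q, by simp [hq]⟩

theorem res_mem {G : SimpleGraph V} {U : Set V} {x z : V} (q : (res G U).Walk x z) (hx : x ∈ U) :
    ∀ w ∈ q.support, w ∈ U := by
  induction q with
  | nil =>
    intro w hw
    simp only [SimpleGraph.Walk.support_nil, List.mem_singleton] at hw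
    exact hw ▸ hx
  | @cons a b c ha q ih =>
    intro w hw
    rw [SimpleGraph.Walk.support_cons, List.mem_cons] at hw
    rcases hw with rfl | hw
    · exact hx
    · exact ih ha.2.2 w hw

theorem res_le (G : SimpleGraph V) (U : Set V) : res G U ≤ G := fun _ _ h => h.1

theorem of_res {G : SimpleGraph V} {U : Set V} {x z : V} (q : (res G U).Walk x z) :
    ∃ p : G.Walk x z, p.support = q.support ∧ p.length = q.length :=
  ⟨q.mapLe (res_le G U), by simp, by simp⟩

theorem res_mono {G : SimpleGraph V} {U U' : Set V} (h : U ⊆ U') : res G U ≤ res G U' :=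
  fun _ _ h' => ⟨h'.1, h h'.2.1, h h'.2.2⟩

theorem reach_mem {G : SimpleGraph V} {U : Set V} {x z : V} (h : (res G U).Reachable x z)
    (hx : x ∈ U) : z ∈ U := by
  obtain ⟨q⟩ := h
  exact res_mem q hx z q.end_mem_support

/-- unions of walks with a common start are connected -/
theorem con_of_walks {G : SimpleGraph V} {U : Set V} (v : V) (H : Set V) (hv : v ∈ H)
    (h : ∀ w ∈ H, ∃ (z : V) (q : (res G U).Walk v z), w ∈ q.support ∧ ∀ u ∈ q.support, u ∈ H) :
    (G.induce H).Connected := by
  refine SimpleGraph.induce_connected_of_patches v hv (fun {w} hw => ?_)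
  obtain ⟨z, q, hq, hs⟩ := h w hw
  obtain ⟨p, hp, -⟩ := of_res q
  have h1 : v ∈ {u | u ∈ p.support} := p.start_mem_support
  have h2 : w ∈ {u | u ∈ p.support} := by
    show w ∈ p.support
    rw [hp]
    exact hq
  refine ⟨{u | u ∈ p.support}, fun u hu => hs u ?_, h1, h2, ?_⟩
  · rw [← hp]
    exact hu
  · exact p.connected_induce_support.preconnected _ _

/-- near any vertex there are few vertices of a geodesic -/
theorem geo {V : Type} [Finite V] (G' : SimpleGraph V) (a b : V) (P : G'.Walk a b)
    (hP : P.length = G'.dist a b) (r : ℕ) (v0 : V) :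
    {u | u ∈ P.support ∧ ∃ q : G'.Walk v0 u, q.length ≤ r}.ncard ≤ 2 * r + 1 := by
  set Q : Set V := {u | u ∈ P.support ∧ ∃ q : G'.Walk v0 u, q.length ≤ r} with hQ
  have key : ∀ u ∈ P.support, P.getVert (G'.dist a u) = u := by
    intro u hu
    rw [SimpleGraph.Walk.mem_support_iff_exists_getVert] at hu
    obtain ⟨i, hi, hil⟩ := hu
    have h1 : G'.dist a u ≤ i := by
      have := SimpleGraph.dist_le ((P.take i).copy rfl hi)
      simp only [SimpleGraph.Walk.length_copy, SimpleGraph.Walk.take_length] at this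
      omega
    have h2 : i ≤ G'.dist a u := by
      have hr : G'.Reachable a u := ⟨(P.take i).copy rfl hi⟩
      obtain ⟨q, hq⟩ := hr.exists_walk_length_eq_dist
      have := SimpleGraph.dist_le (q.append ((P.drop i).copy hi rfl))
      simp only [SimpleGraph.Walk.length_append, SimpleGraph.Walk.length_copy,
        SimpleGraph.Walk.drop_length] at this
      omega
    rw [le_antisymm h1 h2, hi]
  rcases Set.eq_empty_or_nonempty Q with hE | hne
  · rw [hE, Set.ncard_empty]
    omega
  · obtain ⟨u0, hu0, hmin⟩ := Set.exists_min_image Q (fun u => G'.dist a u) (Set.toFinite Q) hne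
    have hmaps : ∀ u ∈ Q, G'.dist a u ∈ (Set.Icc (G'.dist a u0) (G'.dist a u0 + 2 * r)) := by
      intro u hu
      refine ⟨hmin u hu, ?_⟩
      obtain ⟨hu1, q1, hq1⟩ := hu
      obtain ⟨hu2, q2, hq2⟩ := hu0
      rw [SimpleGraph.Walk.mem_support_iff_exists_getVert] at hu2
      obtain ⟨i, hi, hil⟩ := hu2
      have hr : G'.Reachable a u0 := ⟨(P.take i).copy rfl hi⟩
      obtain ⟨q, hq⟩ := hr.exists_walk_length_eq_dist
      have := SimpleGraph.dist_le (q.append (q2.reverse.append q1))
      simp only [SimpleGraph.Walk.length_append, SimpleGraph.Walk.length_reverse] at this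
      omega
    have h1 := Set.ncard_le_ncard_of_injOn (s := Q)
      (t := Set.Icc (G'.dist a u0) (G'.dist a u0 + 2 * r)) (fun u => G'.dist a u) hmaps
      (fun u hu u' hu' he => by
        have e1 := key u hu.1
        have e2 := key u' hu'.1
        have e3 : G'.dist a u = G'.dist a u' := he
        rw [← e1, ← e2, e3]) (Set.toFinite _)
    refine h1.trans ?_
    rw [Set.ncard_eq_toFinset_card']
    simp
    omega

/-- the parts adjacent to the component of `v` among the vertices with value `n` -/
def Ad (G : SimpleGraph V) (n : ℕ) (part : V → ℕ) (v : V) (j : ℕ) : Prop :=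
  j < n ∧ ∃ u y, (res G {w | part w = n}).Reachable v u ∧ G.Adj u y ∧ part y = j

/-- the state of the construction -/
structure St (G : SimpleGraph V) (t n : ℕ) (part : V → ℕ) (B : ℕ → Finset ℕ) : Prop where
  le : ∀ v, part v ≤ n
  con : ∀ j < n, (G.induce {v | part v = j}).Connected
  adj : ∀ v, part v = n → ∀ i j, i ≠ j → Ad G n part v i → Ad G n part v j →
    ∃ a b, part a = i ∧ part b = j ∧ G.Adj a b
  cB : ∀ j, (B j).card ≤ t
  P1 : ∀ (x z y : V) (p : G.Walk x z), part x < n → (∀ w ∈ p.support, part x ≤ part w) →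
    G.Adj z y → part y < part x → part y ∈ B (part x)
  P2 : ∀ (r j : ℕ) (v : V), j < n → {u | part u = j ∧ ∃ p : G.Walk v u, p.length ≤ r ∧
        ∀ w ∈ p.support, j ≤ part w}.ncard ≤ t * (2 * r + 1)

theorem cardS {G : SimpleGraph V} {t n : ℕ} {part : V → ℕ} {B : ℕ → Finset ℕ}
    (h : St G t n part B) (hG : ¬ IsMinor (⊤ : SimpleGraph (Fin t)) G) (v : V) (hv : part v = n)
    (S : Finset ℕ) (hS : ∀ j ∈ S, Ad G n part v j) : S.card + 1 < t := by
  by_contra hc
  push Not at hc
  apply hG
  have hn : n ∉ S := fun hn => lt_irrefl _ (hS n hn).1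
  have hcard : t ≤ (insert n S).card := by
    rw [Finset.card_insert_of_notMem hn]
    exact hc
  obtain ⟨T, hT, hTc⟩ := Finset.exists_subset_card_eq hcard
  obtain ⟨e⟩ : Nonempty (Fin t ≃ T) := ⟨(Finset.equivFinOfCardEq hTc).symm⟩
  set Bs : ℕ → Set V := fun j => if j = n then {u | (res G {w | part w = n}).Reachable v u}
    else {u | part u = j} with hBs
  have hBn : Bs n = {u | (res G {w | part w = n}).Reachable v u} := by simp [hBs]
  have hBj : ∀ j, j ≠ n → Bs j = {u | part u = j} := by
    intro j hj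
    simp [hBs, hj]
  have hmem : ∀ i : Fin t, (e i : ℕ) = n ∨ (e i : ℕ) ∈ S := by
    intro i
    have := hT (e i).2
    rwa [Finset.mem_insert] at this
  have hCn : ∀ u, (res G {w | part w = n}).Reachable v u → part u = n :=
    fun u hu => reach_mem (U := {w | part w = n}) hu hv
  have hdis : ∀ j, j ≠ n → Disjoint (Bs n) (Bs j) := by
    intro j hj
    rw [hBn, hBj j hj, Set.disjoint_left]
    intro u hu hu'
    exact hj ((hu'.symm.trans (hCn u hu)))
  have hadj : ∀ j ∈ S, ∃ x ∈ Bs n, ∃ y ∈ Bs j, G.Adj x y := by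
    intro j hj
    obtain ⟨hlt, u, y, hu, hy, hp⟩ := hS j hj
    refine ⟨u, ?_, y, ?_, hy⟩
    · rw [hBn]
      exact hu
    · rw [hBj j hlt.ne]
      exact hp
  refine ⟨fun i => Bs (e i), ?_, ?_, ?_⟩
  · intro i
    show (G.induce (Bs (e i))).Connected
    rcases hmem i with hi | hi
    · rw [hi, hBn]
      refine con_of_walks (U := {w | part w = n}) v _ (SimpleGraph.Reachable.refl v) ?_
      intro w hw
      obtain ⟨q⟩ := hw
      refine ⟨w, q, q.end_mem_support, fun u hu => ?_⟩
      classical
      exact ⟨q.takeUntil u hu⟩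
    · rw [hBj _ (hS _ hi).1.ne]
      exact h.con _ (hS _ hi).1
  · intro i j hij
    have hne : (e i : ℕ) ≠ (e j : ℕ) := fun hh => hij (e.injective (Subtype.ext hh))
    show Disjoint (Bs (e i)) (Bs (e j))
    by_cases h1 : (e i : ℕ) = n
    · rw [h1]
      exact hdis _ (fun h2 => hne (h1.trans h2.symm))
    · by_cases h2 : (e j : ℕ) = n
      · rw [h2]
        exact (hdis _ h1).symm
      · rw [hBj _ h1, hBj _ h2, Set.disjoint_left]
        intro u hu hu'
        exact hne (hu.symm.trans hu')
  · intro i j hij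
    have hne : (e i : ℕ) ≠ (e j : ℕ) := fun hh => hij.ne (e.injective (Subtype.ext hh))
    show ∃ x ∈ Bs (e i), ∃ y ∈ Bs (e j), G.Adj x y
    rcases hmem i with hi | hi <;> rcases hmem j with hj | hj
    · exact absurd (hi.trans hj.symm) hne
    · rw [hi]
      exact hadj _ hj
    · rw [hj]
      obtain ⟨x, hx, y, hy, hxy⟩ := hadj _ hi
      exact ⟨y, hy, x, hx, hxy.symm⟩
    · obtain ⟨a, b, ha, hb, hab⟩ := h.adj v hv _ _ hne (hS _ hi) (hS _ hj)
      refine ⟨a, ?_, b, ?_, hab⟩
      · rw [hBj _ (hS _ hi).1.ne]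
        exact ha
      · rw [hBj _ (hS _ hj).1.ne]
        exact hb

theorem step {V : Type} [Finite V] {G : SimpleGraph V} {t n : ℕ} {part : V → ℕ}
    {B : ℕ → Finset ℕ} (h : St G t n part B) (hG : ¬ IsMinor (⊤ : SimpleGraph (Fin t)) G) (v : V)
    (hv : part v = n) : ∃ part' B', St G t (n + 1) part' B' ∧
      {w | part' w = n + 1}.ncard < {w | part w = n}.ncard := by
  classical
  set G' := res G {w | part w = n} with hG'
  set S : Finset ℕ := (Finset.range n).filter fun j => Ad G n part v j with hS
  have hSm : ∀ j, j ∈ S ↔ Ad G n part v j := by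
    intro j
    rw [hS, Finset.mem_filter, Finset.mem_range]
    exact ⟨fun h => h.2, fun h => ⟨h.1, h⟩⟩
  have hcS := cardS h hG v hv S fun j hj => (hSm j).1 hj
  have hnS : n ∉ S := fun hn => lt_irrefl _ ((hSm n).1 hn).1
  have hex : ∀ j : ℕ, ∃ (u : V) (P : G'.Walk v u), P.length = G'.dist v u ∧
      (Ad G n part v j → ∃ y, G.Adj u y ∧ part y = j) := by
    intro j
    by_cases hj : Ad G n part v j
    · obtain ⟨hlt, u, y, hu, hy, hp⟩ := hj
      obtain ⟨P, hP⟩ := hu.exists_walk_length_eq_dist
      exact ⟨u, P, hP, fun _ => ⟨y, hy, hp⟩⟩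
    · exact ⟨v, .nil, by simp, fun h => absurd h hj⟩
  choose uu P hP hA using hex
  set H : Set V := {w | ∃ j ∈ insert n S, w ∈ (P j).support} with hH
  have hvH : v ∈ H := ⟨n, Finset.mem_insert_self _ _, (P n).start_mem_support⟩
  have hHr : ∀ w ∈ H, G'.Reachable v w := by
    rintro w ⟨j, -, hw⟩
    exact ⟨(P j).takeUntil w hw⟩
  have hHn : ∀ w ∈ H, part w = n := fun w hw => reach_mem (U := {w | part w = n}) (hHr w hw) hv
  set part' : V → ℕ := fun w => if part w = n ∧ w ∉ H then n + 1 else part w with hpart'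
  have p1 : ∀ w, part w = n → w ∉ H → part' w = n + 1 := fun w h1 h2 => by
    simp [hpart', h1, h2]
  have p2 : ∀ w, w ∈ H → part' w = n := fun w h1 => by
    simp [hpart', h1, hHn w h1]
  have p3 : ∀ w, part w ≠ n → part' w = part w := fun w h1 => by
    simp [hpart', h1]
  have hle := h.le
  have q1 : ∀ w, part' w = n + 1 → part w = n ∧ w ∉ H := by
    intro w hw
    by_cases h1 : part w = n
    · by_cases h2 : w ∈ H
      · have := p2 w h2
        omega
      · exact ⟨h1, h2⟩
    · have := p3 w h1
      have := hle w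
      omega
  have q2 : ∀ w, part' w = n → w ∈ H := by
    intro w hw
    by_contra h2
    by_cases h1 : part w = n
    · have := p1 w h1 h2
      omega
    · have := p3 w h1
      omega
  have q3 : ∀ w, part' w < n → part w = part' w := by
    intro w hw
    by_cases h1 : part w = n
    · by_cases h2 : w ∈ H
      · have := p2 w h2
        omega
      · have := p1 w h1 h2
        omega
    · exact (p3 w h1).symm
  have q4 : ∀ w, part w < n → part' w = part w := fun w hw => p3 w hw.ne
  have q5 : ∀ w j, j ≤ n → (j ≤ part' w ↔ j ≤ part w) := by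
    intro w j hj
    by_cases h1 : part w = n
    · by_cases h2 : w ∈ H
      · rw [p2 w h2, h1]
      · rw [p1 w h1 h2, h1]
        omega
    · rw [p3 w h1]
  have q6 : ∀ w, n ≤ part' w → part w = n := by
    intro w hw
    have := (q5 w n le_rfl).1 hw
    have := hle w
    omega
  -- components
  have hmono : res G {w | part' w = n + 1} ≤ G' := res_mono fun w hw => (q1 w hw).1
  have r1 : ∀ w i, Ad G (n + 1) part' w i → i < n → Ad G n part w i := by
    rintro w i ⟨-, u, y, hu, hy, hp⟩ hi
    exact ⟨hi, u, y, hu.mono hmono, hy, by rw [q3 y (by omega), hp]⟩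
  have r2 : ∀ w, part' w = n + 1 → Ad G (n + 1) part' w n → G'.Reachable v w := by
    rintro w hw ⟨-, u, y, hu, hy, hp⟩
    have h1 : G'.Reachable v y := hHr y (q2 y hp)
    have h2 : part u = n := (q1 u (reach_mem (U := {w | part' w = n + 1}) hu hw)).1
    have h3 : G'.Adj y u := ⟨hy.symm, hHn y (q2 y hp), h2⟩
    exact (h1.trans h3.reachable).trans (hu.mono hmono).symm
  have r3 : ∀ w i, G'.Reachable v w → Ad G n part w i → Ad G n part v i := by
    rintro w i hw ⟨hi, u, y, hu, hy, hp⟩
    exact ⟨hi, u, y, hw.trans hu, hy, hp⟩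
  have r4 : ∀ i, Ad G n part v i → ∃ a b, part' a = n ∧ part' b = i ∧ G.Adj a b := by
    intro i hi
    obtain ⟨y, hy, hp⟩ := hA i hi
    refine ⟨uu i, y, p2 _ ⟨i, Finset.mem_insert_of_mem ((hSm i).2 hi), (P i).end_mem_support⟩,
      ?_, hy⟩
    rw [q4 y (by rw [hp]; exact hi.1), hp]
  refine ⟨part', Function.update B n S, ⟨?_, ?_, ?_, ?_, ?_, ?_⟩, ?_⟩
  · intro w
    by_cases h1 : part w = n
    · by_cases h2 : w ∈ H
      · rw [p2 w h2]
        omega
      · rw [p1 w h1 h2]
    · rw [p3 w h1]
      have := hle w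
      omega
  · intro j hj
    rcases (Nat.lt_succ_iff_lt_or_eq.1 hj) with hj | rfl
    · have : {w | part' w = j} = {w | part w = j} := by
        ext w
        constructor
        · intro hw
          have hw' : part' w = j := hw
          show part w = j
          rw [q3 w (by omega), hw']
        · intro hw
          have hw' : part w = j := hw
          show part' w = j
          rw [q4 w (by omega), hw']
      rw [this]
      exact h.con j hj
    · have : {w | part' w = j} = H := by
        ext w
        exact ⟨fun hw => q2 w hw, fun hw => p2 w hw⟩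
      rw [this]
      refine con_of_walks (U := {w | part w = j}) v H hvH ?_
      rintro w ⟨i, hi, hw⟩
      exact ⟨uu i, P i, hw, fun u hu => ⟨i, hi, hu⟩⟩
  · intro w hw i j hij hi hj
    have hwn := (q1 w hw).1
    rcases (Nat.lt_succ_iff_lt_or_eq.1 hi.1) with hi' | hi' <;>
      rcases (Nat.lt_succ_iff_lt_or_eq.1 hj.1) with hj' | hj'
    · obtain ⟨a, b, ha, hb, hab⟩ := h.adj w hwn i j hij (r1 w i hi hi') (r1 w j hj hj')
      exact ⟨a, b, by rw [q4 a (by omega), ha], by rw [q4 b (by omega), hb], hab⟩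
    · rw [hj'] at hj
      obtain ⟨a, b, ha, hb, hab⟩ := r4 i (r3 w i (r2 w hw hj) (r1 w i hi hi'))
      exact ⟨b, a, hb, by rw [ha, hj'], hab.symm⟩
    · rw [hi'] at hi
      obtain ⟨a, b, ha, hb, hab⟩ := r4 j (r3 w j (r2 w hw hi) (r1 w j hj hj'))
      exact ⟨a, b, by rw [ha, hi'], hb, hab⟩
    · exact absurd (hi'.trans hj'.symm) hij
  · intro j
    by_cases hj : j = n
    · rw [hj, Function.update_self]
      omega
    · rw [Function.update_of_ne hj]
      exact h.cB j
  · intro x z y p hx hp hzy hy
    rcases (Nat.lt_succ_iff_lt_or_eq.1 hx) with hx' | hx'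
    · rw [Function.update_of_ne (by omega)]
      have e1 := q3 x hx'
      have e2 := q3 y (by omega)
      rw [← e1, ← e2]
      refine h.P1 x z y p (by omega) (fun w hw => ?_) hzy (by omega)
      have := hp w hw
      rw [e1]
      exact (q5 w (part' x) hx'.le).1 this
    · rw [hx', Function.update_self, hSm]
      have hxH := q2 x hx'
      obtain ⟨q, -⟩ := to_res (U := {w | part w = n}) p (fun w hw => q6 w (by
        have := hp w hw
        omega))
      have e2 := q3 y (by omega)
      exact ⟨by omega, z, y, (hHr x hxH).trans ⟨q⟩, hzy, e2⟩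
  · intro r j v0 hj
    rcases (Nat.lt_succ_iff_lt_or_eq.1 hj) with hj | rfl
    · have : {u | part' u = j ∧ ∃ p : G.Walk v0 u, p.length ≤ r ∧
          ∀ w ∈ p.support, j ≤ part' w} = {u | part u = j ∧ ∃ p : G.Walk v0 u, p.length ≤ r ∧
          ∀ w ∈ p.support, j ≤ part w} := by
        ext u
        constructor
        · rintro ⟨h1, p, h2, h3⟩
          exact ⟨by rw [q3 u (by omega), h1], p, h2, fun w hw => (q5 w j hj.le).1 (h3 w hw)⟩
        · rintro ⟨h1, p, h2, h3⟩
          exact ⟨by rw [q4 u (by omega), h1], p, h2, fun w hw => (q5 w j hj.le).2 (h3 w hw)⟩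
      rw [this]
      exact h.P2 r j v0 hj
    · have hsub : {u | part' u = j ∧ ∃ p : G.Walk v0 u, p.length ≤ r ∧
          ∀ w ∈ p.support, j ≤ part' w} ⊆
          ⋃ i ∈ insert j S, {u | u ∈ (P i).support ∧ ∃ q : G'.Walk v0 u, q.length ≤ r} := by
        rintro u ⟨h1, p, h2, h3⟩
        obtain ⟨i, hi, hu⟩ := q2 u h1
        obtain ⟨q, hq⟩ := to_res (U := {w | part w = j}) p (fun w hw => q6 w (h3 w hw))
        simp only [Set.mem_iUnion]
        exact ⟨i, hi, hu, q, by omega⟩
      refine (Set.ncard_le_ncard hsub (Set.toFinite _)).trans ?_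
      refine (Finset.set_ncard_biUnion_le _ _).trans ?_
      refine (Finset.sum_le_card_nsmul _ _ (2 * r + 1) fun i _ => geo G' v (uu i) (P i) (hP i) r
        v0).trans ?_
      rw [smul_eq_mul, Finset.card_insert_of_notMem hnS]
      exact Nat.mul_le_mul_right _ (by omega)
  · refine Set.ncard_lt_ncard ?_ (Set.toFinite _)
    refine ⟨fun w hw => (q1 w hw).1, fun hh => ?_⟩
    have h1 : part' v = n + 1 := hh hv
    have h2 := p2 v hvH
    omega

theorem w1 : StmtW1 := by
  intro t V _ G hG
  -- strong induction on the number of vertices not yet processed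
  have main : ∀ (m n : ℕ) (part : V → ℕ) (B : ℕ → Finset ℕ), St G t n part B →
      {w | part w = n}.ncard ≤ m → ∃ n' part' B', St G t n' part' B' ∧ ∀ w, part' w < n' := by
    intro m
    induction m with
    | zero =>
      intro n part B h hm
      refine ⟨n, part, B, h, fun w => lt_of_le_of_ne (h.le w) fun hw => ?_⟩
      have h1 : {w | part w = n} = ∅ := (Set.ncard_eq_zero (Set.toFinite _)).1 (by omega)
      have h2 : w ∈ {w | part w = n} := hw
      rw [h1] at h2
      exact h2
    | succ m ih =>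
      intro n part B h hm
      by_cases hall : ∀ w, part w < n
      · exact ⟨n, part, B, h, hall⟩
      · push Not at hall
        obtain ⟨v, hv⟩ := hall
        obtain ⟨part', B', h', hlt⟩ := step h hG v (le_antisymm (h.le v) hv)
        exact ih (n + 1) part' B' h' (by omega)
  obtain ⟨n, part, B, h, hall⟩ := main _ 0 (fun _ => 0) (fun _ => ∅) (by
    refine ⟨fun _ => le_rfl, fun j hj => absurd hj (by omega), ?_, fun _ => by simp,
      fun x z y p hx => absurd hx (by omega), fun r j v hj => absurd hj (by omega)⟩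
    rintro v - i j - ⟨hi, -⟩
    exact absurd hi (by omega)) le_rfl
  refine ⟨part, B, h.cB, fun x z y p hp => h.P1 x z y p (hall x) hp, fun r j v => ?_⟩
  rcases lt_or_ge j n with hj | hj
  · exact h.P2 r j v hj
  · have : {u | part u = j ∧ ∃ p : G.Walk v u, p.length ≤ r ∧
        ∀ w ∈ p.support, j ≤ part w} = ∅ := by
      rw [Set.eq_empty_iff_forall_notMem]
      rintro u ⟨h1, -⟩
      have := hall u
      omega
    rw [this, Set.ncard_empty]
    omega

end Pool.Agent.R141.SQW
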