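import Pool.Agent.R489.SQ.Stm

/-!
# SQ-W2 (helper141): bounded weak colouring numbers from chordal partitions
-/

set_option autoImplicit false

namespace Pool.Agent.R141.SQW2

open Finset Pool.Agent.R489.SQ

/-- parts reachable in at most `i` steps -/
def R (B : ℕ → Finset ℕ) : ℕ → ℕ → Finset ℕ
  | 0, q => {q}
  | i + 1, q => insert q ((B q).biUnion (R B i))

theorem self_mem (B : ℕ → Finset ℕ) (i q : ℕ) : q ∈ R B i q := by
  cases i with
  | zero => simp [R]
  | succ i => simp [R]

theorem card_R (B : ℕ → Finset ℕ) (t : ℕ) (hB : ∀ j, (B j).card ≤ t) (i q : ℕ) :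
    (R B i q).card ≤ (t + 1) ^ i := by
  induction i generalizing q with
  | zero => simp [R]
  | succ i ih =>
    rw [R]
    have h1 : ((B q).biUnion (R B i)).card ≤ t * (t + 1) ^ i :=
      (Finset.card_biUnion_le_card_mul _ _ _ fun q' _ => ih q').trans
        (Nat.mul_le_mul_right _ (hB q))
    have h2 := Finset.card_insert_le q ((B q).biUnion (R B i))
    have h3 : 1 ≤ (t + 1) ^ i := Nat.one_le_pow _ _ (by omega)
    rw [pow_succ]
    nlinarith

theorem walk_R {V : Type} {G : SimpleGraph V} {part : V → ℕ} {B : ℕ → Finset ℕ}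
    (P1 : ∀ (x z y : V) (p : G.Walk x z), (∀ w ∈ p.support, part x ≤ part w) → G.Adj z y →
        part y < part x → part y ∈ B (part x)) {z u : V} (p : G.Walk z u) :
    ∀ (r : ℕ) (x : V) (p0 : G.Walk x z), p.length ≤ r → (∀ w ∈ p0.support, part x ≤ part w) →
      (∀ w ∈ p.support, part u ≤ part w) → part u ≤ part x → part u ∈ R B r (part x) := by
  induction p with
  | @nil z =>
    intro r x p0 hr hp0 hp hx
    have h1 := hp0 z p0.end_mem_support
    rw [le_antisymm hx h1]
    exact self_mem B r _
  | @cons z z' u hadj p ih =>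
    intro r x p0 hr hp0 hp hx
    rw [SimpleGraph.Walk.length_cons] at hr
    have hp' : ∀ w ∈ p.support, part u ≤ part w := fun w hw => hp w (by simp [hw])
    rcases le_or_gt (part x) (part z') with h1 | h1
    · refine ih r x (p0.append (.cons hadj .nil)) (by omega) ?_ hp' hx
      intro w hw
      rw [SimpleGraph.Walk.mem_support_append_iff] at hw
      rcases hw with hw | hw
      · exact hp0 w hw
      · simp only [SimpleGraph.Walk.support_cons, SimpleGraph.Walk.support_nil, List.mem_cons,
          List.not_mem_nil, or_false] at hw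
        rcases hw with rfl | rfl
        · exact hp0 _ p0.end_mem_support
        · exact h1
    · have h2 := P1 x z z' p0 hp0 hadj h1
      obtain ⟨s, rfl⟩ : ∃ s, r = s + 1 := ⟨r - 1, by omega⟩
      have h3 := ih s z' .nil (by omega) (by simp) hp' (hp' _ p.start_mem_support)
      rw [R]
      exact Finset.mem_insert_of_mem (Finset.mem_biUnion.2 ⟨_, h2, h3⟩)

theorem greedy {V : Type} [Finite V] (ρ : V → ℕ) (hρ : Function.Injective ρ) (A : V → V → Prop)
    (hA : ∀ v u, A v u → ρ u ≤ ρ v) (K : ℕ) (hK : ∀ v, {u | A v u}.ncard ≤ K) :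
    ∃ f : V → Fin (K + 1), ∀ u v, u ≠ v → A v u → f u ≠ f v := by
  classical
  have main : ∀ m : ℕ, ∃ f : V → Fin (K + 1), ∀ u v, ρ v < m → u ≠ v → A v u → f u ≠ f v := by
    intro m
    induction m with
    | zero => exact ⟨fun _ => 0, fun u v hv => absurd hv (by omega)⟩
    | succ m ih =>
      obtain ⟨f, hf⟩ := ih
      by_cases hex : ∃ v, ρ v = m
      · obtain ⟨v0, hv0⟩ := hex
        have hfin : (f '' {u | A v0 u}).Finite := Set.toFinite _
        have hcard : (f '' {u | A v0 u}).ncard ≤ K :=
          (Set.ncard_image_le (Set.toFinite _)).trans (hK v0)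
        have hne : ∃ c : Fin (K + 1), c ∉ f '' {u | A v0 u} := by
          by_contra hc
          push Not at hc
          have h1 : f '' {u | A v0 u} = Set.univ := Set.eq_univ_of_forall hc
          rw [h1, Set.ncard_univ, Nat.card_eq_fintype_card, Fintype.card_fin] at hcard
          omega
        obtain ⟨c, hc⟩ := hne
        refine ⟨Function.update f v0 c, fun u v hv huv huA => ?_⟩
        have hle := hA v u huA
        have hlt : ρ u < ρ v := lt_of_le_of_ne hle fun h => huv (hρ h)
        by_cases hvv : v = v0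
        · subst hvv
          rw [Function.update_self, Function.update_of_ne huv]
          intro h
          exact hc ⟨u, huA, h⟩
        · have h1 : ρ v ≠ m := fun h => hvv (hρ (h.trans hv0.symm))
          have h2 : u ≠ v0 := by
            rintro rfl
            omega
          rw [Function.update_of_ne hvv, Function.update_of_ne h2]
          exact hf u v (by omega) huv huA
      · refine ⟨f, fun u v hv huv huA => hf u v ?_ huv huA⟩
        have h1 : ρ v ≠ m := fun h => hex ⟨v, h⟩
        omega
  obtain ⟨m, hm⟩ := (Set.finite_range ρ).bddAbove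
  obtain ⟨f, hf⟩ := main (m + 1)
  exact ⟨f, fun u v huv huA => hf u v (Nat.lt_succ_of_le (hm ⟨v, rfl⟩)) huv huA⟩

theorem w2 : StmtW2 := by
  intro hW1 t r
  refine ⟨(t + 1) ^ r * (t * (2 * r + 1)) + 1, fun V _ G hG => ?_⟩
  classical
  obtain ⟨part, B, hB, P1, P2⟩ := hW1 t V G hG
  obtain ⟨N, ⟨e⟩⟩ := Finite.exists_equiv_fin V
  set ρ : V → ℕ := fun v => part v * N + (e v : ℕ) with hρ
  have hlt : ∀ u v, part u < part v → ρ u < ρ v := by
    intro u v huv
    have h1 := (e u).2
    have h2 : (part u + 1) * N ≤ part v * N := Nat.mul_le_mul_right _ huv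
    simp only [hρ]
    nlinarith
  have hinj : Function.Injective ρ := by
    intro u v huv
    have h1 : part u = part v := by
      rcases lt_trichotomy (part u) (part v) with h | h | h
      · exact absurd huv (hlt u v h).ne
      · exact h
      · exact absurd huv (hlt v u h).ne'
    simp only [hρ] at huv
    rw [h1] at huv
    exact e.injective (Fin.ext (by omega))
  have hle : ∀ u v, ρ u ≤ ρ v → part u ≤ part v := fun u v h => by
    by_contra hc
    exact absurd (hlt v u (not_le.1 hc)) (not_lt.2 h)
  have hcount : ∀ v, {u | WR G ρ r v u}.ncard ≤ (t + 1) ^ r * (t * (2 * r + 1)) := by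
    intro v
    have hsub : {u | WR G ρ r v u} ⊆ ⋃ j ∈ R B r (part v), {u | part u = j ∧
        ∃ p : G.Walk v u, p.length ≤ r ∧ ∀ w ∈ p.support, j ≤ part w} := by
      rintro u ⟨p, hp, hpu⟩
      have h1 : ∀ w ∈ p.support, part u ≤ part w := fun w hw => hle u w (hpu w hw)
      have h2 := walk_R P1 p r v .nil hp (by simp) h1 (h1 v p.start_mem_support)
      simp only [Set.mem_iUnion]
      exact ⟨part u, h2, rfl, p, hp, h1⟩
    refine (Set.ncard_le_ncard hsub (Set.toFinite _)).trans ?_
    refine (Finset.set_ncard_biUnion_le _ _).trans ?_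
    refine (Finset.sum_le_card_nsmul _ _ (t * (2 * r + 1)) fun j _ => P2 r j v).trans ?_
    rw [smul_eq_mul]
    exact Nat.mul_le_mul_right _ (card_R B t hB r _)
  obtain ⟨f, hf⟩ := greedy ρ hinj (fun v u => WR G ρ r v u)
    (fun v u ⟨p, _, hp⟩ => hp v p.start_mem_support) _ hcount
  exact ⟨ρ, f, hinj, hf⟩

end Pool.Agent.R141.SQW2
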